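import Pool.Agent.Lib.MP_46e101_co.FIN

/-!
# MP_46e101_co, Q1: a simplicial polytope is determined by its (i-1)-skeleton and its affine
i-stresses (Kalai's conjecture)

The definitions `IsFace`, `IsSimplicialPolytope`, `affineStress` are in
`Pool/Agent/Lib/MP_46e101_co/Poly.lean`.
-/

open MP46

namespace Pool.Agent.Results.MP_46e101_co.Kalai

/-- Let `1 ≤ i` and `2 i ≤ d`, and let `P`, `Q` be simplicial `d`-polytopes with the same label
set `V` of vertices, the same faces with at most `i` vertices and the same space of affine
`i`-stresses.  Then `P` and `Q` have the same boundary complex. -/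
theorem result {V : Type*} [Fintype V] [DecidableEq V] {d i : ℕ} (hi : 1 ≤ i) (hd : 2 * i ≤ d)
    (P Q : V → EuclideanSpace ℝ (Fin d))
    (hP : IsSimplicialPolytope P) (hQ : IsSimplicialPolytope Q)
    (hskel : ∀ F : Finset V, F.card ≤ i → (IsFace P F ↔ IsFace Q F))
    (hst : affineStress i P = affineStress i Q) :
    ∀ F : Finset V, IsFace P F ↔ IsFace Q F :=
  kalai hi hd hP hQ hskel hst

end Pool.Agent.Results.MP_46e101_co.Kalai
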